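import Pool.Agent.Lib.MP_b5021c_nt.KO.H42.Pwc
import Pool.Agent.Lib.MP_b5021c_nt.KO.H42.Fc

/-!
# MP_b5021c_nt, K ODD, PURE BETA, row BE_CLS: one variable (PaperBeta 5)

`q = f - X E`, `e` = sum of the values of type A, `M` = sum of the values of type B.
-/

namespace Pool.Agent.B5.O4Q

open Polynomial Metric Complex Filter Topology
open Pool.Agent.B5.Nr.Sch (SP aeval_map_real circ aeval_re exists_quot)
open Pool.Agent.B5.H39.Cara (re_nonneg_of_circle)
open Pool.Agent.B5.O4P (circle_le aeval0)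

/-- The data of the row on the circle (off `T`). -/
structure CH (q f E e M : ℝ[X]) (T : Set ℂ) : Prop where
  hT : T.Countable
  f0 : f.coeff 0 = 1
  hE : q = f - X * E
  Ez : ∀ z : ℂ, ‖z‖ < 1 → (aeval z E : ℂ) ≠ 0
  qz : ∀ z : ℂ, ‖z‖ = 1 → (aeval z q : ℂ) ≠ 0
  H : ∀ z : ℂ, ‖z‖ = 1 → z ∉ T → ∀ ρ s t : ℂ, ‖ρ - 7 / 4‖ < 9 / 4 → -(1 / 2) < s.re →
    -(1 / 2) < t.re → (aeval z q : ℂ) + z * aeval z f * (1 - ρ) - z * aeval z e * s +
      aeval z M * t ≠ 0

variable {q f E e M : ℝ[X]} {T : Set ℂ}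

theorem cont_aeval (P : ℝ[X]) : Continuous fun z : ℂ => (aeval z P : ℂ) :=
  (Polynomial.differentiable_aeval P).continuous

theorem z_ne {z : ℂ} (hz : ‖z‖ = 1) : z ≠ 0 := by
  intro h; rw [h] at hz; simp at hz

theorem CH.qe (h : CH q f E e M T) (z : ℂ) : (aeval z q : ℂ) = aeval z f - z * aeval z E := by
  rw [h.hE]; simp

/-- The disc around `7/4`. -/
theorem CH.base (h : CH q f E e M T) {z : ℂ} (hz : ‖z‖ = 1) :
    9 / 4 * ‖(aeval z f : ℂ)‖ ≤ ‖(aeval z q : ℂ) - 3 / 4 * z * aeval z f‖ := by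
  refine circle_le (φ := fun z => 9 / 4 * ‖(aeval z f : ℂ)‖)
    (ψ := fun z => ‖(aeval z q : ℂ) - 3 / 4 * z * aeval z f‖)
    ((continuous_const.mul (cont_aeval f).norm).continuousOn)
    (((cont_aeval q).sub ((continuous_const.mul continuous_id).mul (cont_aeval f))).norm.continuousOn)
    h.hT (fun z hz hzT => ?_) hz
  by_contra hcon
  push Not at hcon
  have hf : (aeval z f : ℂ) ≠ 0 := by
    intro h0
    simp only [h0, norm_zero, mul_zero] at hcon
    exact absurd hcon (not_lt.mpr (norm_nonneg _))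
  have hz0 := z_ne hz
  have h1 : 0 < ‖(aeval z f : ℂ)‖ := norm_pos_iff.mpr hf
  refine h.H z hz hzT (7 / 4 + (aeval z q - 3 / 4 * z * aeval z f) / (z * aeval z f)) 0 0 ?_
    (by norm_num) (by norm_num) ?_
  · rw [add_sub_cancel_left, norm_div, norm_mul, hz, one_mul, div_lt_iff₀ h1]
    exact hcon
  · field_simp
    ring

/-- `E` has no zero in the closed disc. -/
theorem CH.Ec (h : CH q f E e M T) {z : ℂ} (hz : ‖z‖ ≤ 1) : (aeval z E : ℂ) ≠ 0 := by
  rcases lt_or_eq_of_le hz with h1 | h1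
  · exact h.Ez z h1
  · intro h0
    have h2 := h.base h1
    have h3 := h.qe z
    rw [h0, mul_zero, sub_zero] at h3
    have h4 := h.qz z h1
    rw [h3] at h4
    have h5 : 0 < ‖(aeval z f : ℂ)‖ := norm_pos_iff.mpr h4
    have h6 : (aeval z q : ℂ) - 3 / 4 * z * aeval z f = aeval z f * (1 - 3 / 4 * z) := by
      rw [h3]; ring
    rw [h6, norm_mul, mul_comm] at h2
    have h7 := le_of_mul_le_mul_left h2 h5
    have h8 : ‖(1 : ℂ) - 3 / 4 * z‖ ≤ 7 / 4 := by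
      calc ‖(1 : ℂ) - 3 / 4 * z‖ ≤ ‖(1 : ℂ)‖ + ‖3 / 4 * z‖ := norm_sub_le _ _
        _ = 7 / 4 := by rw [norm_mul, h1]; norm_num
    linarith

/-- `|f| ≤ 2 |E|`. -/
theorem CH.spE (h : CH q f E e M T) : SP (C (1 / 2) * f) E := by
  refine SP.of_circle (fun z hz => h.Ec hz) fun z hz => ?_
  have h1 := h.base hz
  have h2 : (aeval z q : ℂ) - 3 / 4 * z * aeval z f =
      (1 - 3 / 4 * z) * aeval z f - z * aeval z E := by rw [h.qe]; ring
  have h3 : ‖(1 : ℂ) - 3 / 4 * z‖ ≤ 7 / 4 := by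
    calc ‖(1 : ℂ) - 3 / 4 * z‖ ≤ ‖(1 : ℂ)‖ + ‖3 / 4 * z‖ := norm_sub_le _ _
      _ = 7 / 4 := by rw [norm_mul, hz]; norm_num
  have h4 : ‖(1 - 3 / 4 * z) * aeval z f - z * aeval z E‖ ≤
      7 / 4 * ‖(aeval z f : ℂ)‖ + ‖(aeval z E : ℂ)‖ := by
    refine (norm_sub_le _ _).trans ?_
    rw [norm_mul, norm_mul, hz, one_mul]
    exact add_le_add_left (mul_le_mul_of_nonneg_right h3 (norm_nonneg _)) _
  have h5 : (aeval z (C (1 / 2) * f) : ℂ) = ((1 / 2 : ℝ) : ℂ) * aeval z f := by simp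
  rw [h5, norm_mul, norm_real, Real.norm_of_nonneg (by norm_num)]
  rw [h2] at h1
  linarith

/-- From the half plane to the disc. -/
theorem half' {X e : ℂ} (h : ∀ s : ℂ, -(1 / 2) < s.re → X + e * s ≠ 0) : ‖X - e‖ ≤ ‖X‖ := by
  have h1 := O4F.half h
  have h2 : ‖X - e‖ ^ 2 ≤ ‖X‖ ^ 2 := by
    have e1 : ‖X - e‖ ^ 2 = ‖e‖ ^ 2 + ‖X‖ ^ 2 - 2 * (X * (starRingEnd ℂ) e).re := by
      rw [← normSq_eq_norm_sq, ← normSq_eq_norm_sq, ← normSq_eq_norm_sq, normSq_apply,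
        normSq_apply, normSq_apply]
      simp only [sub_re, sub_im, mul_re, conj_re, conj_im]
      ring
    rw [e1]
    linarith
  exact le_of_sq_le_sq h2 (norm_nonneg _)

/-- (5.2) -/
theorem CH.count1 (h : CH q f E e M T) {τ t : ℝ} (hτ0 : 0 < τ) (hτ : τ < 1) (ht0 : 0 < t)
    (ht : t < 1) (hM : 0 ≤ M.coeff 0) (hEp : 0 < E.coeff 0) (hY0 : τ / 2 < E.coeff 0) :
    e.coeff 0 ≤ 2 * (E.coeff 0 - τ / 2 - t * M.coeff 0) := by
  obtain ⟨Y, hY⟩ : ∃ Y : ℝ[X], Y = E - C (τ / 2) * f := ⟨_, rfl⟩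
  have hYz : ∀ z : ℂ, (aeval z Y : ℂ) = aeval z E - ((τ / 2 : ℝ) : ℂ) * aeval z f := by
    intro z
    rw [hY]
    simp
  have hYne : ∀ z : ℂ, ‖z‖ ≤ 1 → (aeval z Y : ℂ) ≠ 0 := by
    intro z hz h0
    rw [hYz, sub_eq_zero] at h0
    have h1 := h.spE.le z hz
    have h2 : (aeval z (C (1 / 2) * f) : ℂ) = ((1 / 2 : ℝ) : ℂ) * aeval z f := by simp
    rw [h2, norm_mul, norm_real, Real.norm_of_nonneg (by norm_num)] at h1
    have h3 : ‖(aeval z E : ℂ)‖ = τ / 2 * ‖(aeval z f : ℂ)‖ := by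
      rw [h0, norm_mul, norm_real, Real.norm_of_nonneg (by linarith)]
    have h4 : 0 < ‖(aeval z E : ℂ)‖ := norm_pos_iff.mpr (h.Ec hz)
    nlinarith [norm_nonneg (aeval z f : ℂ)]
  have hρ : ∀ z : ℂ, ‖z‖ = 1 → ‖(1 - ((τ / 2 : ℝ) : ℂ) + 1 / z) - 7 / 4‖ < 9 / 4 := by
    intro z hz
    have h1 : (1 - ((τ / 2 : ℝ) : ℂ) + 1 / z) - 7 / 4 = 1 / z - ((3 / 4 + τ / 2 : ℝ) : ℂ) := by
      push_cast; ring
    rw [h1]
    refine (norm_sub_le _ _).trans_lt ?_
    rw [norm_div, norm_one, hz, norm_real, Real.norm_of_nonneg (by linarith)]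
    linarith
  have hQ : ∀ z : ℂ, ‖z‖ = 1 → (aeval z q : ℂ) + z * aeval z f *
      (1 - (1 - ((τ / 2 : ℝ) : ℂ) + 1 / z)) = -(z * aeval z Y) := by
    intro z hz
    have hz0 := z_ne hz
    rw [hYz, h.qe]
    field_simp
    ring
  -- the first Schur pair
  have sp1 : SP (X * Y + M) Y := by
    refine SP.of_circle hYne fun z hz => ?_
    have e1 : (aeval z (X * Y + M) : ℂ) = z * aeval z Y + aeval z M := by simp
    rw [e1]
    refine circle_le (φ := fun z => ‖z * aeval z Y + (aeval z M : ℂ)‖)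
      (ψ := fun z => ‖(aeval z Y : ℂ)‖)
      (((continuous_id.mul (cont_aeval Y)).add (cont_aeval M)).norm.continuousOn)
      ((cont_aeval Y).norm.continuousOn) h.hT (fun z hz hzT => ?_) hz
    have h1 := half' (X := -(z * aeval z Y)) (e := aeval z M) fun s hs => by
      have h2 := h.H z hz hzT _ 0 s (hρ z hz) (by norm_num) hs
      rw [hQ z hz, mul_zero, sub_zero] at h2
      exact h2
    have e2 : -(z * aeval z Y) - (aeval z M : ℂ) = -(z * aeval z Y + aeval z M) := by ring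
    rw [e2, norm_neg, norm_neg, norm_mul, hz, one_mul] at h1
    exact h1
  obtain ⟨R, hR⟩ : ∃ R : ℝ[X], R = Y - C t * (X * Y + M) := ⟨_, rfl⟩
  have hRz : ∀ z : ℂ, (aeval z R : ℂ) = aeval z Y - (t : ℂ) * (z * aeval z Y + aeval z M) := by
    intro z
    rw [hR]
    simp
  have hRne : ∀ z : ℂ, ‖z‖ ≤ 1 → (aeval z R : ℂ) ≠ 0 := by
    intro z hz h0
    rw [hRz, sub_eq_zero] at h0
    have h1 := sp1.le z hz
    have e1 : (aeval z (X * Y + M) : ℂ) = z * aeval z Y + aeval z M := by simp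
    rw [e1] at h1
    have h3 : ‖(aeval z Y : ℂ)‖ = t * ‖z * aeval z Y + (aeval z M : ℂ)‖ := by
      rw [← Real.norm_of_nonneg ht0.le, ← norm_real, ← norm_mul, ← h0]
    have h4 : 0 < ‖(aeval z Y : ℂ)‖ := norm_pos_iff.mpr (hYne z hz)
    nlinarith [norm_nonneg (z * aeval z Y + (aeval z M : ℂ))]
  have sp2 : SP (R - (1 - C t * X) * e) R := by
    refine SP.of_circle hRne fun z hz => ?_
    have e1 : (aeval z (R - (1 - C t * X) * e) : ℂ) = aeval z R - (1 - t * z) * aeval z e := by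
      simp
    rw [e1]
    refine circle_le (φ := fun z => ‖aeval z R - (1 - t * z) * (aeval z e : ℂ)‖)
      (ψ := fun z => ‖(aeval z R : ℂ)‖)
      (((cont_aeval R).sub ((continuous_const.sub (continuous_const.mul continuous_id)).mul
        (cont_aeval e))).norm.continuousOn)
      ((cont_aeval R).norm.continuousOn) h.hT (fun z hz hzT => ?_) hz
    have hz0 := z_ne hz
    have htz : ‖(t : ℂ) * z‖ < 1 := by
      rw [norm_mul, hz, norm_real, Real.norm_of_nonneg ht0.le, mul_one]; exact ht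
    have hd : 1 - (t : ℂ) * z ≠ 0 := by
      intro h0
      rw [← sub_eq_zero.mp h0, norm_one] at htz
      exact lt_irrefl _ htz
    have hre : -(1 / 2) < ((t : ℂ) * z / (1 - t * z)).re := by
      obtain ⟨w, hw⟩ : ∃ w : ℂ, w = (t : ℂ) * z := ⟨_, rfl⟩
      rw [← hw] at htz hd ⊢
      have h1 : normSq w < 1 := by
        rw [normSq_eq_norm_sq]
        nlinarith [norm_nonneg w]
      have h2 : 0 < normSq (1 - w) := normSq_pos.mpr hd
      rw [div_re, ← add_div, lt_div_iff₀ h2]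
      rw [normSq_apply] at h1 h2 ⊢
      simp only [sub_re, one_re, sub_im, one_im] at h2 ⊢
      nlinarith
    refine half' fun s hs => ?_
    have h2 := h.H z hz hzT _ s ((t : ℂ) * z / (1 - t * z)) (hρ z hz) hs hre
    rw [hQ z hz] at h2
    intro h0
    apply h2
    have hu : ((1 : ℂ) - t * z)⁻¹ * (1 - t * z) = 1 := inv_mul_cancel₀ hd
    have e2 : -(z * aeval z Y) - z * aeval z e * s + aeval z M * (t * z / (1 - t * z)) =
        -(z * (1 - t * z)⁻¹) * (aeval z R + (1 - t * z) * aeval z e * s) := by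
      rw [hRz, div_eq_mul_inv]
      linear_combination (z * aeval z Y + z * aeval z e * s) * hu
    rw [e2, h0, mul_zero]
  have cY : Y.coeff 0 = E.coeff 0 - τ / 2 := by
    rw [hY, coeff_sub, coeff_C_mul, h.f0, mul_one]
  have cR : R.coeff 0 = E.coeff 0 - τ / 2 - t * M.coeff 0 := by
    rw [hR, coeff_sub, coeff_C_mul, coeff_add, coeff_X_mul_zero, zero_add, cY]
  have c1 := sp1.coeff_le.2
  rw [coeff_add, coeff_X_mul_zero, zero_add, cY, abs_of_nonneg hM,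
    abs_of_pos (by linarith)] at c1
  have hRp : 0 < R.coeff 0 := by
    rw [cR]
    nlinarith
  have c2 := sp2.coeff_le.2
  have e3 : (R - (1 - C t * X) * e).coeff 0 = R.coeff 0 - e.coeff 0 := by
    rw [coeff_sub, mul_coeff_zero, coeff_sub, coeff_C_mul, coeff_X_zero, coeff_one_zero]
    ring
  rw [e3, abs_of_pos hRp] at c2
  have c3 := (abs_le.mp c2).1
  rw [cR] at c3
  linarith

/-- (5.1), (5.2): the count. -/
theorem CH.count (h : CH q f E e M T) {N : ℝ} (hN : 0 ≤ N) (hM : 0 ≤ M.coeff 0)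
    (hE0 : E.coeff 0 = N + 1) : e.coeff 0 + 2 * M.coeff 0 ≤ 2 * N + 1 := by
  refine le_of_forall_pos_le_add fun ε hε => ?_
  obtain ⟨δ, hδ0, hδ1, hδ⟩ : ∃ δ : ℝ, 0 < δ ∧ δ < 1 ∧ δ * (1 + 2 * M.coeff 0) ≤ ε := by
    refine ⟨min (1 / 2) (ε / (1 + 2 * M.coeff 0)), ?_, ?_, ?_⟩
    · exact lt_min (by norm_num) (by positivity)
    · exact (min_le_left _ _).trans_lt (by norm_num)
    · calc min (1 / 2) (ε / (1 + 2 * M.coeff 0)) * (1 + 2 * M.coeff 0) ≤
          ε / (1 + 2 * M.coeff 0) * (1 + 2 * M.coeff 0) :=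
            mul_le_mul_of_nonneg_right (min_le_right _ _) (by positivity)
        _ = ε := by field_simp
  have h1 := h.count1 (τ := 1 - δ) (t := 1 - δ) (by linarith) (by linarith) (by linarith)
    (by linarith) hM (by rw [hE0]; linarith) (by rw [hE0]; linarith)
  rw [hE0] at h1
  nlinarith

end Pool.Agent.B5.O4Q
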