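import Pool.Agent.Lib.MP_b5021c_nt.KO.H50.Bcu
import Pool.Agent.Lib.MP_b5021c_nt.KO.H58.BeAsm
import Pool.Agent.Lib.MP_b5021c_nt.KE.H96.Two

/-!
# MP_b5021c_nt, K ODD, PURE BETA, row BE_CLS: the assembly (without the case of three rays of type B)
-/

namespace Pool.Agent.B5.O4Q

open scoped LaurentPolynomial
open Polynomial
open Pool.Agent.B5.Nr.Sch (SP aeval_map_real circ aeval_re exists_quot Loc)
open Pool.Agent.B5.O4P (circle_le aeval0)
open Pool.Agent.B5.KO58 (evR_pl ta_eps tb_eps)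

/-- (ii) -/
theorem CH.two {q f E e M : ℝ[X]} {T : Set ℂ} (h : CH q f E e M T) (hE0 : E.coeff 0 = 4)
    (hq : 0 < q.eval (1 / 4)) {eps : ℝ[X]} (heps : ∀ z : ℂ, ‖z‖ = 1 →
      9 / 4 * ‖(aeval z f : ℂ)‖ + 1 / 2 * ‖(aeval z eps : ℂ)‖ ≤
        ‖(aeval z q : ℂ) - 3 / 4 * z * aeval z f‖) : eps.coeff 0 < 26 / 5 := by
  obtain ⟨ζ, W, hζ0, hζ1, hU, hW⟩ := h.uz (by rw [hE0]; norm_num)
  have hz := h.zeta hE0 hq hζ0 hζ1 hU hW
  have hSP : SP (C (9 / 4) * f + C (1 / 2) * eps) ((1 - C ζ * X) * W) := by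
    refine sp_of hζ0 hζ1 hU hW fun z hz => ?_
    rw [h.Uq, norm_neg]
    refine le_trans ?_ (heps z hz)
    have e1 : (aeval z (C (9 / 4) * f + C (1 / 2) * eps) : ℂ) =
        9 / 4 * aeval z f + 1 / 2 * aeval z eps := by simp
    rw [e1]
    refine (norm_add_le _ _).trans (le_of_eq ?_)
    rw [norm_mul, norm_mul]
    norm_num
  have h1 := hSP.coeff_le.2
  have e0 : Up f E = X * W - C ζ * W := by rw [hU]; ring
  have cW0 : ζ * W.coeff 0 = 1 := by
    have h1 := h.Ucoeff.1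
    rw [e0, coeff_sub, coeff_X_mul_zero, coeff_C_mul] at h1
    linarith
  have hW0p : 0 < W.coeff 0 := by
    by_contra hcon
    push Not at hcon
    nlinarith
  have c1 : ((1 - C ζ * X) * W).coeff 0 = W.coeff 0 := by
    have hR' : (1 - C ζ * X) * W = W - C ζ * (X * W) := by ring
    rw [hR', coeff_sub, coeff_C_mul, coeff_X_mul_zero, mul_zero, sub_zero]
  have c2 : (C (9 / 4) * f + C (1 / 2) * eps).coeff 0 = 9 / 4 + 1 / 2 * eps.coeff 0 := by
    rw [coeff_add, coeff_C_mul, coeff_C_mul, h.f0, mul_one]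
  rw [c1, c2, abs_of_pos hW0p] at h1
  have h2 := (le_abs_self _).trans h1
  have h3 : W.coeff 0 < 4.85 := by
    by_contra hcon
    push Not at hcon
    nlinarith
  nlinarith

theorem neg_on_open {t : ℝ[X]} (ht : ∀ z : ℂ, ‖z‖ < 1 → (aeval z t : ℂ) ≠ 0)
    (h0 : t.coeff 0 < 0) {x : ℝ} (hx0 : 0 ≤ x) (hx1 : x < 1) : t.eval x < 0 := by
  by_contra hcon
  push Not at hcon
  have hmem : (0 : ℝ) ∈ Set.Icc (t.eval 0) (t.eval x) := by
    refine ⟨?_, hcon⟩
    rw [← coeff_zero_eq_eval_zero]; exact h0.le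
  obtain ⟨y, hy, hy0⟩ := intermediate_value_Icc hx0 (f := fun y => t.eval y) (by fun_prop) hmem
  apply ht (y : ℂ)
  · rw [Complex.norm_real, Real.norm_of_nonneg hy.1]
    exact hy.2.trans_lt hx1
  · rw [aeval_re]
    simp only at hy0
    rw [hy0, Complex.ofReal_zero]

/-- A ray of type B with `1/b - b ≥ 1`. -/
theorem tb_val {m : RO ℤ} {V : ℤ[X]} {a b : ℝ} (ha : 0 < a) (h : TB m V a b)
    (hb1 : 1 ≤ b⁻¹ - b) : (V.map (Int.castRingHom ℝ)).eval (5 / 8) ≤ 0 ∧ 8 / 5 ≤ b⁻¹ := by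
  obtain ⟨hm, hV0, hab, -, t, hVt, ht⟩ := h
  have hb : 0 < b := ha.trans hab
  have h1 : b * b⁻¹ = 1 := mul_inv_cancel₀ hb.ne'
  have h2 : b ≤ 5 / 8 := by
    by_contra hcon
    push Not at hcon
    have h3 : b * (b⁻¹ - b) ≥ b * 1 := mul_le_mul_of_nonneg_left hb1 hb.le
    nlinarith
  have h3 : 8 / 5 ≤ b⁻¹ := by
    have h4 : b⁻¹ ≥ (5 / 8)⁻¹ := inv_anti₀ hb h2
    norm_num at h4
    exact h4
  refine ⟨?_, h3⟩
  have h4 := congrArg (fun p => coeff p 0) hVt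
  simp only [coeff_map, mul_coeff_zero, coeff_sub, coeff_X_zero, coeff_C_zero, zero_sub,
    hV0, map_one] at h4
  have h5 : t.coeff 0 < 0 := by
    by_contra hcon
    push Not at hcon
    nlinarith
  have h6 := neg_on_open ht h5 (x := 5 / 8) (by norm_num) (by norm_num)
  rw [hVt]
  simp only [eval_mul, eval_sub, eval_X, eval_C]
  nlinarith

/-- `Q` with the data of type A or B. -/
theorem sum_map {s : ℕ} (Q : Finset (Fin s)) (V : Fin s → ℤ[X]) (z : ℂ) :
    (aeval z (∑ i ∈ Q, (V i).map (Int.castRingHom ℝ)) : ℂ) = ∑ i ∈ Q, aeval z (V i) := by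
  rw [map_sum]
  exact Finset.sum_congr rfl fun i _ => aeval_map_real _ _

/-- BE_CLS, the case of three rays of type B as a hypothesis. -/
theorem beCls_of (hTyp : BeTypS) (hPar : BeParS)
    (hB3 : ∀ {q f E e M : ℝ[X]} {T : Set ℂ}, CH q f E e M T → E.coeff 0 = 4 → M.coeff 0 = 3 →
      0 < q.eval (1 / 4) → M.eval (5 / 8) ≤ 0 → False) : BeClsS := by
  intro P L _ _ _ _ _ phi D q f a j s S es T lam h hj Q hQ
  classical
  rcases Q.eq_empty_or_nonempty with rfl | hne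
  · refine ⟨by simp, fun _ h3 => ?_⟩
    simp at h3
  have hfin := hPar P L phi D q f a j s S es T lam h Q hne hQ
  have hty := hTyp P L phi D q f a j s S es T lam h
  have hRN := h.nS 0
  have ha := hRN.loc.a0
  -- the data
  have hdat : ∀ i, ∃ (Ef Vf : ℤ[X]) (ef : ℝ[X]),
      ((Vf = 0 ∧ TA (bm D (T i) (lam i)) Ef ∧ ef.coeff 0 = Ef.coeff 0) ∨
        (Ef = 0 ∧ Vf ≠ 0 ∧ ∃ b, TB (bm D (T i) (lam i)) Vf a b ∧ ef.coeff 0 = b⁻¹)) ∧
      ∀ z : Circle, ‖(aeval (z : ℂ) ef : ℂ)‖ = ‖evR z (bm D (T i) (lam i))‖ := by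
    intro i
    rcases hty i with ⟨Ei, hE⟩ | ⟨V, b, hV⟩
    · obtain ⟨eps, h2, h3⟩ := ta_eps hE
      exact ⟨Ei, 0, eps, Or.inl ⟨rfl, hE, h3⟩, h2⟩
    · obtain ⟨eps, h2, h3⟩ := tb_eps ha hV
      refine ⟨0, V, eps, Or.inr ⟨rfl, ?_, b, hV, h3⟩, h2⟩
      intro h0
      have := hV.2.1
      rw [h0] at this
      simp at this
  choose Ef Vf ef hd hn using hdat
  obtain ⟨E, hE1, hE2, -, hE3⟩ := Pool.Agent.B5.KE.typa hRN.loc h.f0 hRN.ne
  obtain ⟨Ts, hTs⟩ : ∃ Ts : Set ℂ, Ts = (fun z : Circle => (z : ℂ)) ''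
    {z : Circle | ¬ ∀ (rho : ℂ) (t : Fin s → ℂ), ‖rho - 7 / 4‖ < 9 / 4 →
        (∀ i, -(1 / 2) < (t i).re) → (aeval (z : ℂ) q : ℂ) + z * aeval (z : ℂ) f * (1 - rho) +
          ∑ i ∈ Q, evR z (bm D (T i) (lam i)) * t i ≠ 0} := ⟨_, rfl⟩
  have hTc : Ts.Countable := by rw [hTs]; exact (hfin.image _).countable
  -- the full inequality
  have hfull : ∀ (z : Circle), (z : ℂ) ∉ Ts → ∀ (rho : ℂ) (t : Fin s → ℂ), ‖rho - 7 / 4‖ < 9 / 4 →
        (∀ i, -(1 / 2) < (t i).re) → (aeval (z : ℂ) q : ℂ) + z * aeval (z : ℂ) f * (1 - rho) +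
          ∑ i ∈ Q, evR z (bm D (T i) (lam i)) * t i ≠ 0 := by
    intro z hz
    by_contra hcon
    apply hz
    rw [hTs]
    exact ⟨z, hcon, rfl⟩
  have hev : ∀ i (z : Circle), evR z (bm D (T i) (lam i)) =
      -((z : ℂ) * aeval (z : ℂ) (Ef i)) + aeval (z : ℂ) (Vf i) := by
    intro i z
    rcases hd i with ⟨h1, h2, -⟩ | ⟨h1, -, b, h2, -⟩
    · rw [h2.1, h1, map_neg, evR_pl]
      simp
    · rw [h2.1, h1, evR_pl]
      simp
  obtain ⟨er, her⟩ : ∃ er : ℝ[X], er = ∑ i ∈ Q, (Ef i).map (Int.castRingHom ℝ) := ⟨_, rfl⟩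
  obtain ⟨Mr, hMr⟩ : ∃ Mr : ℝ[X], Mr = ∑ i ∈ Q, (Vf i).map (Int.castRingHom ℝ) := ⟨_, rfl⟩
  obtain ⟨sq, hsq, hsq1⟩ := hRN.loc.s
  have hCH : CH (q.map (Int.castRingHom ℝ)) (f.map (Int.castRingHom ℝ))
      (E.map (Int.castRingHom ℝ)) er Mr Ts := by
    refine ⟨hTc, by rw [coeff_map, h.f0]; simp, ?_, fun z hz => ?_, fun z hz => ?_, ?_⟩
    · have h1 : q = f - X * E := by rw [← hE1]; ring
      rw [h1]
      simp
    · rw [aeval_map_real]
      exact hE3 z hz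
    · rw [hsq]
      simp only [map_mul, map_sub, aeval_X, aeval_C, Complex.coe_algebraMap]
      refine mul_ne_zero ?_ (hsq1 z hz.le)
      intro h0
      rw [sub_eq_zero] at h0
      rw [h0, Complex.norm_real, Real.norm_of_nonneg ha.le] at hz
      exact hRN.loc.a1.ne hz
    · intro z hz hzT ρ s' t' hρ hs' ht'
      obtain ⟨c, rfl⟩ : ∃ c : Circle, (c : ℂ) = z := ⟨⟨z, mem_sphere_zero_iff_norm.mpr hz⟩, rfl⟩
      have h1 := hfull c hzT ρ
        (fun i => if Vf i = 0 then s' else t') hρ (fun i => by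
          split_ifs
          · exact hs'
          · exact ht')
      have h2 : ∑ i ∈ Q, evR c (bm D (T i) (lam i)) * (if Vf i = 0 then s' else t') =
          -((c : ℂ) * aeval (c : ℂ) er * s') + aeval (c : ℂ) Mr * t' := by
        rw [her, hMr, sum_map, sum_map, Finset.mul_sum, Finset.sum_mul, Finset.sum_mul,
          ← Finset.sum_neg_distrib, ← Finset.sum_add_distrib]
        refine Finset.sum_congr rfl fun i _ => ?_
        rw [hev]
        rcases hd i with ⟨h3, -⟩ | ⟨h3, h4, -⟩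
        · rw [if_pos h3, h3]
          simp
        · rw [if_neg h4, h3]
          simp
      rw [h2] at h1
      rw [aeval_map_real, aeval_map_real]
      intro h3
      apply h1
      rw [← h3]
      ring
  have hEc : (E.map (Int.castRingHom ℝ)).coeff 0 = (j : ℝ) + 1 := by
    have h1 : E.coeff 0 = (j : ℤ) + 1 := by rw [hE2, h.n]
    rw [coeff_map, h1]
    simp
  have cE : er.coeff 0 = ∑ i ∈ Q, ((Ef i).coeff 0 : ℝ) := by
    rw [her, finset_sum_coeff]
    exact Finset.sum_congr rfl fun i _ => by rw [coeff_map]; simp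
  have cM : Mr.coeff 0 = ∑ i ∈ Q, ((Vf i).coeff 0 : ℝ) := by
    rw [hMr, finset_sum_coeff]
    exact Finset.sum_congr rfl fun i _ => by rw [coeff_map]; simp
  have hM0 : 0 ≤ Mr.coeff 0 := by
    rw [cM]
    refine Finset.sum_nonneg fun i _ => ?_
    rcases hd i with ⟨h3, -⟩ | ⟨-, -, b, h4, -⟩
    · rw [h3]; simp
    · rw [h4.2.1]; simp
  have hcount := hCH.count (N := (j : ℝ)) (Nat.cast_nonneg j) hM0 hEc
  have hcard : 2 * (Q.card : ℝ) ≤ er.coeff 0 + 2 * Mr.coeff 0 := by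
    rw [cE, cM, Finset.mul_sum, ← Finset.sum_add_distrib]
    calc 2 * (Q.card : ℝ) = ∑ _i ∈ Q, (2 : ℝ) := by rw [Finset.sum_const, nsmul_eq_mul]; ring
      _ ≤ _ := Finset.sum_le_sum fun i _ => by
        rcases hd i with ⟨h3, h4, -⟩ | ⟨h3, -, b, h4, -⟩
        · have h5 : (2 : ℝ) ≤ (Ef i).coeff 0 := by exact_mod_cast h4.2
          rw [h3]; simpa using h5
        · rw [h3, h4.2.1]; simp
  have hQj : Q.card ≤ j := by
    have h1 : 2 * (Q.card : ℝ) ≤ 2 * (j : ℝ) + 1 := hcard.trans hcount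
    have h2 : 2 * Q.card ≤ 2 * j + 1 := by exact_mod_cast h1
    omega
  refine ⟨hQj, fun hj3 hQ3 => ?_⟩
  by_contra hcon
  have hb : ∀ i ∈ Q, ∀ V b, TB (bm D (T i) (lam i)) V a b → 1 ≤ b⁻¹ - b := by
    intro i hi V b hV
    by_contra hlt
    push Not at hlt
    exact hcon ⟨i, hi, V, b, hV, hlt⟩
  have hE4 : (E.map (Int.castRingHom ℝ)).coeff 0 = 4 := by
    rw [hEc, hj3]; norm_num
  have hq4 : 0 < (q.map (Int.castRingHom ℝ)).eval (1 / 4) := by
    obtain ⟨t, ht, -, -, -, -, hneg⟩ := hRN.loc.sp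
    have h1 := hneg (1 / 4) (by norm_num) (by norm_num)
    have h2 := h.ko.lt
    rw [hj3] at h2
    push_cast at h2
    rw [ht]
    simp only [eval_mul, eval_sub, eval_X, eval_C]
    nlinarith
  by_cases hall : ∀ i ∈ Q, Ef i = 0
  · -- all of type B
    have hB : ∀ i ∈ Q, ∃ b, TB (bm D (T i) (lam i)) (Vf i) a b := by
      intro i hi
      rcases hd i with ⟨h3, h4, -⟩ | ⟨-, -, b, h4, -⟩
      · exfalso
        have := h4.2
        rw [hall i hi] at this
        simp at this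
      · exact ⟨b, h4⟩
    refine hB3 hCH hE4 ?_ hq4 ?_
    · rw [cM]
      have : ∀ i ∈ Q, ((Vf i).coeff 0 : ℝ) = 1 := fun i hi => by
        obtain ⟨b, h4⟩ := hB i hi
        rw [h4.2.1]; simp
      rw [Finset.sum_congr rfl this, Finset.sum_const, hQ3]
      norm_num
    · rw [hMr, eval_finset_sum]
      refine Finset.sum_nonpos fun i hi => ?_
      obtain ⟨b, h4⟩ := hB i hi
      exact (tb_val ha h4 (hb i hi _ _ h4)).1
  · -- a ray of type A
    push Not at hall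
    obtain ⟨i0, hi0, hne0⟩ := hall
    have h1 : ∀ z : ℂ, ‖z‖ = 1 →
        9 / 4 * ‖(aeval z (f.map (Int.castRingHom ℝ)) : ℂ)‖ +
          1 / 2 * ‖(aeval z (∑ i ∈ Q, ef i) : ℂ)‖ ≤
        ‖(aeval z (q.map (Int.castRingHom ℝ)) : ℂ) -
          3 / 4 * z * aeval z (f.map (Int.castRingHom ℝ))‖ := by
      intro z hz
      refine circle_le (φ := fun z => 9 / 4 * ‖(aeval z (f.map (Int.castRingHom ℝ)) : ℂ)‖ +
          1 / 2 * ‖(aeval z (∑ i ∈ Q, ef i) : ℂ)‖)
        (ψ := fun z => ‖(aeval z (q.map (Int.castRingHom ℝ)) : ℂ) -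
          3 / 4 * z * aeval z (f.map (Int.castRingHom ℝ))‖)
        (((continuous_const.mul (cont_aeval _).norm).add
          (continuous_const.mul (cont_aeval _).norm)).continuousOn)
        (((cont_aeval _).sub ((continuous_const.mul continuous_id).mul
          (cont_aeval _))).norm.continuousOn)
        hTc (fun z hz hzT => ?_) hz
      obtain ⟨c, hc⟩ : ∃ c : Circle, (c : ℂ) = z :=
        ⟨⟨z, mem_sphere_zero_iff_norm.mpr hz⟩, rfl⟩
      have h2 := h2_pt (Q := Q) (m := fun i => evR c (bm D (T i) (lam i)))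
        (q := aeval z q) (f := aeval z f) hz (fun ρ t hρ ht => by
          have := hfull c (by rw [hc]; exact hzT) ρ t hρ ht
          rw [hc] at this
          exact this)
      rw [aeval_map_real, aeval_map_real]
      refine le_trans ?_ h2
      have h3 : ‖(aeval z (∑ i ∈ Q, ef i) : ℂ)‖ ≤ ∑ i ∈ Q, ‖evR c (bm D (T i) (lam i))‖ := by
        rw [map_sum]
        refine (norm_sum_le _ _).trans (le_of_eq ?_)
        refine Finset.sum_congr rfl fun i _ => ?_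
        have := hn i c
        rw [hc] at this
        exact this
      linarith
    have h2 := hCH.two hE4 hq4 h1
    rw [finset_sum_coeff] at h2
    have h3 : ∀ i ∈ Q, 8 / 5 ≤ (ef i).coeff 0 := by
      intro i hi
      rcases hd i with ⟨-, h4, h5⟩ | ⟨-, -, b, h4, h5⟩
      · rw [h5]
        have h6 : (2 : ℝ) ≤ (Ef i).coeff 0 := by exact_mod_cast h4.2
        linarith
      · rw [h5]
        exact (tb_val ha h4 (hb i hi _ _ h4)).2
    have h4 : 2 ≤ (ef i0).coeff 0 := by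
      rcases hd i0 with ⟨-, h4, h5⟩ | ⟨h3, -, b, h4, h5⟩
      · rw [h5]
        exact_mod_cast h4.2
      · exact absurd h3 hne0
    have h5 : ∑ i ∈ Q, (ef i).coeff 0 = (ef i0).coeff 0 + ∑ i ∈ Q.erase i0, (ef i).coeff 0 :=
      (Finset.add_sum_erase Q _ hi0).symm
    have h6 : ((Q.erase i0).card : ℝ) * (8 / 5) ≤ ∑ i ∈ Q.erase i0, (ef i).coeff 0 := by
      rw [← nsmul_eq_mul, ← Finset.sum_const]
      exact Finset.sum_le_sum fun i hi => h3 i (Finset.mem_of_mem_erase hi)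
    have h7 : (Q.erase i0).card = 2 := by rw [Finset.card_erase_of_mem hi0, hQ3]
    rw [h7] at h6
    push_cast at h6
    linarith

end Pool.Agent.B5.O4Q
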