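import Pool.Agent.Lib.MP_b5021c_nt.KO.H50.BcW
import Pool.Agent.Lib.MP_b5021c_nt.KO.H42.BcI

/-!
# MP_b5021c_nt, K ODD, PURE BETA, row BE_CLS
-/

namespace Pool.Agent.B5.O4Q

/-- (BE_CLS) -/
theorem beCls (hTyp : BeTypS) (hPar : BeParS) : BeClsS :=
  beCls_of hTyp hPar fun h => h.three_B

end Pool.Agent.B5.O4Q
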