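import Pool.Agent.Lib.MP_b5021c_nt.KO.H50.Onez

/-!
# MP_b5021c_nt, K ODD, PURE BETA, row BE_CLS: the zero of `U = - (q - 3/4 z f)`
-/

namespace Pool.Agent.B5.O4Q

open Polynomial Metric Complex Filter Topology
open Pool.Agent.B5.Nr.Sch (SP aeval_map_real circ aeval_re exists_quot)
open Pool.Agent.B5.H39.Cara (re_nonneg_of_circle)
open Pool.Agent.B5.O4P (circle_le aeval0)

variable {q f E e M : ℝ[X]} {T : Set ℂ}

/-- `U = z E - (1 - 3/4 z) f`. -/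
noncomputable def Up (f E : ℝ[X]) : ℝ[X] := X * E - (1 - C (3 / 4) * X) * f

theorem Up_z (z : ℂ) : (aeval z (Up f E) : ℂ) = z * aeval z E - (1 - 3 / 4 * z) * aeval z f := by
  rw [Up]; simp

theorem CH.Uq (h : CH q f E e M T) (z : ℂ) :
    (aeval z (Up f E) : ℂ) = -((aeval z q : ℂ) - 3 / 4 * z * aeval z f) := by
  rw [Up_z, h.qe]; ring

theorem CH.baseU (h : CH q f E e M T) {z : ℂ} (hz : ‖z‖ = 1) :
    9 / 4 * ‖(aeval z f : ℂ)‖ ≤ ‖(aeval z (Up f E) : ℂ)‖ := by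
  rw [h.Uq, norm_neg]
  exact h.base hz

theorem re_pos_of_near {u v : ℂ} (h : ‖u - v‖ < ‖u‖) : 0 < (u * (starRingEnd ℂ) v).re := by
  have h1 : ‖u - v‖ ^ 2 < ‖u‖ ^ 2 := by
    have := norm_nonneg (u - v)
    nlinarith
  rw [← normSq_eq_norm_sq, ← normSq_eq_norm_sq, normSq_apply, normSq_apply] at h1
  simp only [sub_re, sub_im, mul_re, conj_re, conj_im] at h1 ⊢
  nlinarith [mul_self_nonneg v.re, mul_self_nonneg v.im]

theorem CH.Une (h : CH q f E e M T) {z : ℂ} (hz : ‖z‖ = 1) : (aeval z (Up f E) : ℂ) ≠ 0 := by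
  intro h0
  have h1 := h.baseU hz
  rw [h0, norm_zero] at h1
  have h2 : (aeval z f : ℂ) = 0 := by
    rw [← norm_eq_zero]
    have := norm_nonneg (aeval z f : ℂ)
    linarith
  rw [Up_z, h2, mul_zero, sub_zero] at h0
  exact (mul_ne_zero (z_ne hz) (h.Ec hz.le)) h0

theorem pos_on {P : ℝ[X]} (hP : ∀ z : ℂ, ‖z‖ ≤ 1 → (aeval z P : ℂ) ≠ 0) (h0 : 0 < P.coeff 0)
    {x : ℝ} (hx0 : 0 ≤ x) (hx1 : x ≤ 1) : 0 < P.eval x := by
  have h2 : SP P P := ⟨hP, fun z _ => le_rfl⟩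
  have h3 := h2.sign hx0 hx1
  rw [← coeff_zero_eq_eval_zero] at h3
  exact (mul_pos_iff_of_pos_left h0).mp h3

theorem CH.U1 (h : CH q f E e M T) (hE0 : 0 < E.coeff 0) : 0 < (Up f E).eval 1 := by
  have hE1 := pos_on (fun z hz => h.Ec hz) hE0 zero_le_one le_rfl
  have h1 := h.baseU (z := 1) (by simp)
  have h2 : (aeval (1 : ℂ) f : ℂ) = ((f.eval 1 : ℝ) : ℂ) := by
    rw [← aeval_re]; simp
  have h3 : (aeval (1 : ℂ) (Up f E) : ℂ) = (((Up f E).eval 1 : ℝ) : ℂ) := by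
    rw [← aeval_re]; simp
  rw [h2, h3, norm_real, norm_real, Real.norm_eq_abs, Real.norm_eq_abs] at h1
  have h4 : (Up f E).eval 1 = E.eval 1 - 1 / 4 * f.eval 1 := by
    rw [Up]; simp only [eval_sub, eval_mul, eval_X, eval_one, eval_C]; ring
  by_contra hcon
  push Not at hcon
  rw [abs_of_nonpos hcon] at h1
  have h5 := le_abs_self (f.eval 1)
  linarith

theorem CH.Ucoeff (h : CH q f E e M T) : (Up f E).coeff 0 = -1 ∧
    (Up f E).coeff 1 = E.coeff 0 + 3 / 4 - f.coeff 1 := by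
  have hU' : Up f E = X * E - f + C (3 / 4) * (X * f) := by rw [Up]; ring
  rw [hU']
  constructor
  · rw [coeff_add, coeff_sub, coeff_X_mul_zero, coeff_C_mul, coeff_X_mul_zero, h.f0]; ring
  · rw [coeff_add, coeff_sub, coeff_X_mul, coeff_C_mul, coeff_X_mul, h.f0]; ring

/-- `U` has one zero in the disc. -/
theorem CH.uz (h : CH q f E e M T) (hE0 : 0 < E.coeff 0) : ∃ (ζ : ℝ) (W : ℝ[X]), 0 < ζ ∧ ζ < 1 ∧
    Up f E = (X - C ζ) * W ∧ ∀ z : ℂ, ‖z‖ ≤ 1 → (aeval z W : ℂ) ≠ 0 := by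
  refine onez (F := Up f E) (G := X * E) (Gh := E) (ζ := 0) le_rfl zero_lt_one (by simp)
    (fun z hz => h.Ec hz) (fun z hz => ?_) ?_ (by rw [h.Ucoeff.1]; norm_num)
  · have hU := norm_pos_iff.mpr (h.Une hz)
    apply re_pos_of_near
    have h1 : (aeval z (Up f E) : ℂ) - aeval z (X * E) = -((1 - 3 / 4 * z) * aeval z f) := by
      rw [Up_z]; simp
    have h3 : ‖(1 : ℂ) - 3 / 4 * z‖ ≤ 7 / 4 := by
      calc ‖(1 : ℂ) - 3 / 4 * z‖ ≤ ‖(1 : ℂ)‖ + ‖3 / 4 * z‖ := norm_sub_le _ _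
        _ = 7 / 4 := by rw [norm_mul, hz]; norm_num
    rw [h1, norm_neg, norm_mul]
    have h4 := h.baseU hz
    have h5 : ‖1 - 3 / 4 * z‖ * ‖(aeval z f : ℂ)‖ ≤ 7 / 4 * ‖(aeval z f : ℂ)‖ :=
      mul_le_mul_of_nonneg_right h3 (norm_nonneg _)
    linarith
  · have hE1 := pos_on (fun z hz => h.Ec hz) hE0 zero_le_one le_rfl
    simpa using hE1

/-- The Schur pair with the denominator `(1 - ζ z) W`. -/
theorem sp_of {F U W : ℝ[X]} {ζ : ℝ} (hζ0 : 0 < ζ) (hζ1 : ζ < 1) (hU : U = (X - C ζ) * W)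
    (hW : ∀ z : ℂ, ‖z‖ ≤ 1 → (aeval z W : ℂ) ≠ 0)
    (hF : ∀ z : ℂ, ‖z‖ = 1 → ‖(aeval z F : ℂ)‖ ≤ ‖(aeval z U : ℂ)‖) :
    SP F ((1 - C ζ * X) * W) := by
  have hRz : ∀ z : ℂ, (aeval z ((1 - C ζ * X) * W) : ℂ) = (1 - ζ * z) * aeval z W := by
    intro z
    simp
  refine SP.of_circle (fun z hz => ?_) fun z hz => ?_
  · rw [hRz]
    exact mul_ne_zero (one_sub_ne hζ0.le hζ1 hz) (hW z hz)
  · have h1 := hF z hz
    rw [hU] at h1
    rw [hRz, norm_mul, ← circ ζ z hz]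
    simpa using h1

/-- `ζ > .2062`. -/
theorem CH.zeta (h : CH q f E e M T) (hE0 : E.coeff 0 = 4) (hq : 0 < q.eval (1 / 4)) {ζ : ℝ}
    {W : ℝ[X]} (hζ0 : 0 < ζ) (hζ1 : ζ < 1) (hU : Up f E = (X - C ζ) * W)
    (hW : ∀ z : ℂ, ‖z‖ ≤ 1 → (aeval z W : ℂ) ≠ 0) : 2062 / 10000 < ζ := by
  by_contra hcon
  push Not at hcon
  have cU := h.Ucoeff
  have e0 : Up f E = X * W - C ζ * W := by rw [hU]; ring
  have cW0 : ζ * W.coeff 0 = 1 := by
    have h1 := cU.1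
    rw [e0, coeff_sub, coeff_X_mul_zero, coeff_C_mul] at h1
    linarith
  have cW1 : W.coeff 0 - ζ * W.coeff 1 = 4 + 3 / 4 - f.coeff 1 := by
    have h1 := cU.2
    rw [e0, coeff_sub, coeff_X_mul, coeff_C_mul, hE0] at h1
    exact h1
  have hW0 : W.coeff 0 = ζ⁻¹ := by
    field_simp
    linarith
  have hW0p : 0 < W.coeff 0 := by rw [hW0]; positivity
  obtain ⟨F, hF⟩ : ∃ F : ℝ[X], F = C (9 / 4) * f := ⟨_, rfl⟩
  obtain ⟨R, hR⟩ : ∃ R : ℝ[X], R = (1 - C ζ * X) * W := ⟨_, rfl⟩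
  have hSP : SP F R := by
    rw [hR]
    refine sp_of hζ0 hζ1 hU hW fun z hz => ?_
    have h1 : ‖(aeval z F : ℂ)‖ = 9 / 4 * ‖(aeval z f : ℂ)‖ := by
      have h2 : (aeval z F : ℂ) = 9 / 4 * aeval z f := by rw [hF]; simp
      rw [h2, norm_mul]; norm_num
    rw [h1]
    exact h.baseU hz
  obtain ⟨b0, eb0⟩ : ∃ b0 : ℝ, b0 = 9 * ζ / 4 := ⟨_, rfl⟩
  obtain ⟨b1, eb1⟩ : ∃ b1 : ℝ, b1 = 9 / 4 * ((4 + 3 / 4) * ζ + ζ ^ 2 - 1) := ⟨_, rfl⟩
  obtain ⟨D0, eD0⟩ : ∃ D0 : ℝ, D0 = 1 - b0 ^ 2 := ⟨_, rfl⟩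
  have hD0 : 0 < D0 := by rw [eD0, eb0]; nlinarith
  have cF0 : F.coeff 0 = 9 / 4 := by rw [hF, coeff_C_mul, h.f0, mul_one]
  have hR' : R = W - C ζ * (X * W) := by rw [hR]; ring
  have cR0 : R.coeff 0 = W.coeff 0 := by
    rw [hR', coeff_sub, coeff_C_mul, coeff_X_mul_zero, mul_zero, sub_zero]
  have cR1 : R.coeff 1 = W.coeff 1 - ζ * W.coeff 0 := by
    rw [hR', coeff_sub, coeff_C_mul, coeff_X_mul]
  have cF1 : F.coeff 1 = 9 / 4 * f.coeff 1 := by rw [hF, coeff_C_mul]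
  have hg : |b0| < 1 := by
    rw [← sq_lt_one_iff_abs_lt_one]
    linarith
  have hF0 : F.coeff 0 = b0 * R.coeff 0 := by
    rw [cF0, cR0, hW0, eb0]
    field_simp
  obtain ⟨F', hF'⟩ := exists_quot F R hF0
  have hst := hSP.step hg hF'
  have cF' : F'.coeff 0 = F.coeff 1 - b0 * R.coeff 1 := by
    have := congrArg (fun p => p.coeff 1) hF'
    simp only [coeff_X_mul, coeff_sub, coeff_C_mul] at this
    exact this
  have cR' : (R - C b0 * F).coeff 0 = R.coeff 0 - b0 * F.coeff 0 := by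
    rw [coeff_sub, coeff_C_mul]
  have eR' : (R - C b0 * F).coeff 0 = ζ⁻¹ * D0 := by
    rw [cR', cR0, cF0, hW0, eD0, eb0]
    field_simp
  have eW1 : W.coeff 1 = ζ⁻¹ * (ζ⁻¹ - (4 + 3 / 4 - f.coeff 1)) := by
    have h1 : ζ * W.coeff 1 = ζ⁻¹ - (4 + 3 / 4 - f.coeff 1) := by
      rw [hW0] at cW1; linarith
    field_simp
    field_simp at h1
    linarith
  have eF' : F'.coeff 0 = ζ⁻¹ * b1 := by
    rw [cF', cF1, cR1, eW1, hW0, eb1, eb0]
    field_simp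
    ring
  have hratio : F'.coeff 0 = (b1 / D0) * (R - C b0 * F).coeff 0 := by
    rw [eF', eR']
    field_simp
  obtain ⟨x, ex⟩ : ∃ x : ℝ, x = 1 / 4 := ⟨_, rfl⟩
  have hx0 : 0 < x := by rw [ex]; norm_num
  have hx1 : x < 1 := by rw [ex]; norm_num
  have hxa : |x| ≤ 1 := by rw [abs_of_pos hx0]; exact hx1.le
  have h1 := hst.pick hratio hx0.le hx1.le
  have hWx : 0 < W.eval x := pos_on hW hW0p hx0.le hx1.le
  have hRx : R.eval x = (1 - ζ * x) * W.eval x := by rw [hR]; simp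
  have h1x : 0 < 1 - ζ * x := by nlinarith
  have hRp : 0 < R.eval x := by rw [hRx]; exact mul_pos h1x hWx
  have hFx : F.eval x = 9 / 4 * f.eval x := by rw [hF]; simp
  have hUx2 : (Up f E).eval x = (x - ζ) * W.eval x := by rw [hU]; simp
  obtain ⟨β, hβ⟩ : ∃ β : ℝ, β = F.eval x / R.eval x := ⟨_, rfl⟩
  have hβR : β * R.eval x = F.eval x := by rw [hβ]; field_simp
  have hβ1 : |β| ≤ 1 := by rw [hβ]; exact hSP.ratio hxa
  have hd : 0 < 1 - b0 * β := by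
    have h3 : |b0 * β| < 1 := by
      rw [abs_mul]
      calc |b0| * |β| ≤ |b0| * 1 := mul_le_mul_of_nonneg_left hβ1 (abs_nonneg _)
        _ < 1 := by rw [mul_one]; exact hg
    linarith [(abs_lt.mp h3).2]
  have hlow : 3 * (x - ζ) < β * x * (1 - ζ * x) := by
    have h3 : 0 < q.eval x := by rw [ex]; exact hq
    have h4 : (Up f E).eval x = -(q.eval x - 3 / 4 * x * f.eval x) := by
      rw [Up, h.hE]; simp; ring
    have h5 : (x - ζ) * W.eval x < 3 / 4 * x * f.eval x := by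
      rw [← hUx2, h4]; linarith
    have h6 : β * ((1 - ζ * x) * W.eval x) = 9 / 4 * f.eval x := by
      rw [← hRx, hβR, hFx]
    have h7 : 3 * (x - ζ) * W.eval x < β * x * (1 - ζ * x) * W.eval x := by
      have : β * x * (1 - ζ * x) * W.eval x = x * (9 / 4 * f.eval x) := by
        rw [← h6]; ring
      rw [this]
      linarith
    exact lt_of_mul_lt_mul_right h7 hWx.le
  have hup : β * ((D0 + x * b1) + b0 * x * (b1 + x * D0)) ≤
      b0 * (D0 + x * b1) + x * (b1 + x * D0) := by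
    have hRxne : R.eval x ≠ 0 := hRp.ne'
    have hsv := SP.step_val hF' hRxne hx0.ne' (by rw [← hβ]; exact hd.ne')
    rw [← hβ] at hsv
    rw [hsv] at h1
    have h2 := (abs_le.mp h1).2
    have hp1 : 0 < x * (1 - b0 * β) := mul_pos hx0 hd
    have h3 : ((β - b0) / (x * (1 - b0 * β))) * (D0 + x * b1) ≤ x * D0 + b1 := by
      have h4 := mul_le_mul_of_nonneg_right h2 hD0.le
      have e3 : ((β - b0) / (x * (1 - b0 * β)) - b1 / D0) * D0 =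
          ((β - b0) / (x * (1 - b0 * β))) * D0 - b1 := by
        rw [sub_mul, div_mul_cancel₀ _ hD0.ne']
      have e4 : x * (1 - b1 / D0 * ((β - b0) / (x * (1 - b0 * β)))) * D0 =
          x * D0 - x * b1 * ((β - b0) / (x * (1 - b0 * β))) := by
        have : x * (1 - b1 / D0 * ((β - b0) / (x * (1 - b0 * β)))) * D0 =
          x * (D0 - (b1 / D0 * D0) * ((β - b0) / (x * (1 - b0 * β)))) := by ring
        rw [this, div_mul_cancel₀ _ hD0.ne']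
        ring
      rw [e3, e4] at h4
      linarith
    rw [div_mul_eq_mul_div, div_le_iff₀ hp1] at h3
    linarith
  have hL : 0 < (D0 + x * b1) + b0 * x * (b1 + x * D0) := by
    have : (D0 + x * b1) + b0 * x * (b1 + x * D0) =
        7 / 16 + 99 / 64 * ζ + 387 / 256 * ζ ^ 2 + 567 / 1024 * ζ ^ 3 := by
      rw [eD0, eb1, eb0, ex]; ring
    rw [this]; positivity
  have h8 := mul_lt_mul_of_pos_right hlow hL
  have h9 : β * x * (1 - ζ * x) * ((D0 + x * b1) + b0 * x * (b1 + x * D0)) ≤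
      x * (1 - ζ * x) * (b0 * (D0 + x * b1) + x * (b1 + x * D0)) := by
    have := mul_le_mul_of_nonneg_left hup (mul_pos hx0 h1x).le
    linarith
  have h10 : 29 / 64 - 281 / 256 * ζ - 4959 / 1024 * ζ ^ 2 - 4905 / 4096 * ζ ^ 3 -
      2349 / 1024 * ζ ^ 4 < 0 := by
    have e1 : 29 / 64 - 281 / 256 * ζ - 4959 / 1024 * ζ ^ 2 - 4905 / 4096 * ζ ^ 3 -
      2349 / 1024 * ζ ^ 4 = 3 * (x - ζ) * ((D0 + x * b1) + b0 * x * (b1 + x * D0)) -
        x * (1 - ζ * x) * (b0 * (D0 + x * b1) + x * (b1 + x * D0)) := by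
      rw [eD0, eb1, eb0, ex]; ring
    rw [e1]
    linarith
  have g2 : ζ ^ 2 ≤ (2062 / 10000) ^ 2 := pow_le_pow_left₀ hζ0.le hcon 2
  have g3 : ζ ^ 3 ≤ (2062 / 10000) ^ 3 := pow_le_pow_left₀ hζ0.le hcon 3
  have g4 : ζ ^ 4 ≤ (2062 / 10000) ^ 4 := pow_le_pow_left₀ hζ0.le hcon 4
  norm_num at g2 g3 g4
  linarith

/-- (H2) at a point. -/
theorem h2_pt {ι : Type} {Q : Finset ι} {m : ι → ℂ} {q f z : ℂ} (hz : ‖z‖ = 1)
    (h : ∀ (ρ : ℂ) (t : ι → ℂ), ‖ρ - 7 / 4‖ < 9 / 4 → (∀ i, -(1 / 2) < (t i).re) →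
      q + z * f * (1 - ρ) + ∑ i ∈ Q, m i * t i ≠ 0) :
    9 / 4 * ‖f‖ + 1 / 2 * ∑ i ∈ Q, ‖m i‖ ≤ ‖q - 3 / 4 * z * f‖ := by
  by_contra hcon
  push Not at hcon
  obtain ⟨V, hV⟩ : ∃ V : ℂ, V = q - 3 / 4 * z * f := ⟨_, rfl⟩
  obtain ⟨S, hS⟩ : ∃ S : ℝ, S = 9 / 4 * ‖f‖ + 1 / 2 * ∑ i ∈ Q, ‖m i‖ := ⟨_, rfl⟩
  rw [← hV, ← hS] at hcon
  have hS0 : 0 < S := (norm_nonneg V).trans_lt hcon
  have hr : ‖V / S‖ < 1 := by
    rw [norm_div, norm_real, Real.norm_of_nonneg hS0.le, div_lt_one hS0]; exact hcon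
  have hu1 : ∀ x : ℂ, x * (‖x‖ / x) = ‖x‖ := by
    intro x
    by_cases hx : x = 0
    · simp [hx]
    · field_simp
  have hu2 : ∀ x : ℂ, ‖(‖x‖ / x : ℂ)‖ ≤ 1 := by
    intro x
    rw [norm_div, norm_real, norm_norm]
    exact div_self_le_one _
  refine h (7 / 4 + 9 / 4 * (‖z * f‖ / (z * f)) * (V / S)) (fun i => -(1 / 2) * (‖m i‖ / m i) *
    (V / S)) ?_ (fun i => ?_) ?_
  · rw [add_sub_cancel_left, norm_mul, norm_mul]
    have h1 : ‖(9 / 4 : ℂ)‖ = 9 / 4 := by norm_num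
    rw [h1]
    calc 9 / 4 * ‖((‖z * f‖ : ℝ) : ℂ) / (z * f)‖ * ‖V / (S : ℂ)‖ ≤ 9 / 4 * 1 * ‖V / (S : ℂ)‖ := by
          have := hu2 (z * f)
          gcongr
      _ < 9 / 4 := by linarith
  · have h1 : ‖-(1 / 2) * ((‖m i‖ : ℂ) / m i) * (V / S)‖ < 1 / 2 := by
      rw [norm_mul, norm_mul]
      have h1 : ‖(-(1 / 2) : ℂ)‖ = 1 / 2 := by norm_num
      rw [h1]
      calc 1 / 2 * ‖((‖m i‖ : ℝ) : ℂ) / m i‖ * ‖V / (S : ℂ)‖ ≤ 1 / 2 * 1 * ‖V / (S : ℂ)‖ := by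
            have := hu2 (m i)
            gcongr
        _ < 1 / 2 := by linarith
    have h2 := (abs_lt.mp ((abs_re_le_norm _).trans_lt h1)).1
    exact h2
  · have hSc : (S : ℂ) ≠ 0 := by exact_mod_cast hS0.ne'
    have h1 : ∑ i ∈ Q, m i * (-(1 / 2) * (‖m i‖ / m i) * (V / S)) =
        -(1 / 2) * ((∑ i ∈ Q, ‖m i‖ : ℝ) : ℂ) * (V / S) := by
      rw [ofReal_sum, Finset.mul_sum, Finset.sum_mul]
      refine Finset.sum_congr rfl fun i _ => ?_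
      have := hu1 (m i)
      linear_combination (-(1 / 2) * (V / S)) * this
    rw [h1]
    have h2 : z * f * (‖z * f‖ / (z * f)) = ‖f‖ := by
      rw [hu1, norm_mul, hz, one_mul]
    have h3 : q + z * f * (1 - (7 / 4 + 9 / 4 * (‖z * f‖ / (z * f)) * (V / S))) =
        V - 9 / 4 * ‖f‖ * (V / S) := by
      have h4 : V = q - 3 / 4 * z * f := hV
      linear_combination (-(9 / 4) * (V / S)) * h2 - h4
    rw [h3]
    have h5 : (S : ℂ) = 9 / 4 * ‖f‖ + 1 / 2 * ((∑ i ∈ Q, ‖m i‖ : ℝ) : ℂ) := by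
      rw [hS]; push_cast; ring
    have h6 : V / S * S = V := div_mul_cancel₀ V hSc
    linear_combination (-1) * h6 + (V / S) * h5

end Pool.Agent.B5.O4Q
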