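import Pool.Agent.Lib.MP_b5021c_nt.KO.H50.BcA

/-!
# MP_b5021c_nt, K ODD, PURE BETA, row BE_CLS: one zero in the disc
-/

namespace Pool.Agent.B5.O4Q

open Polynomial Metric Complex Filter Topology
open Pool.Agent.B5.Nr.Sch (SP aeval_map_real circ aeval_re exists_quot)
open Pool.Agent.B5.H39.Cara (re_nonneg_of_circle)
open Pool.Agent.B5.O4P (circle_le aeval0)

/-- `1 - ζ z ≠ 0` in the closed disc. -/
theorem one_sub_ne {ζ : ℝ} (h0 : 0 ≤ ζ) (h1 : ζ < 1) {z : ℂ} (hz : ‖z‖ ≤ 1) :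
    1 - (ζ : ℂ) * z ≠ 0 := by
  intro h
  have h2 : ‖(ζ : ℂ) * z‖ = 1 := by rw [← sub_eq_zero.mp h, norm_one]
  rw [norm_mul, norm_real, Real.norm_of_nonneg h0] at h2
  nlinarith [norm_nonneg z]

/-- `Re (F conj G) > 0` on the circle, `G` has exactly one zero in the closed disc, so has `F`. -/
theorem onez {F G Gh : ℝ[X]} {ζ : ℝ} (hζ0 : 0 ≤ ζ) (hζ1 : ζ < 1) (hG : G = (X - C ζ) * Gh)
    (hGh : ∀ z : ℂ, ‖z‖ ≤ 1 → (aeval z Gh : ℂ) ≠ 0)
    (hpos : ∀ z : ℂ, ‖z‖ = 1 → 0 < ((aeval z F : ℂ) * (starRingEnd ℂ) (aeval z G)).re)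
    (hG1 : 0 < G.eval 1) (hF0 : F.coeff 0 < 0) :
    ∃ (ζ' : ℝ) (Fh : ℝ[X]), 0 < ζ' ∧ ζ' < 1 ∧ F = (X - C ζ') * Fh ∧
      ∀ z : ℂ, ‖z‖ ≤ 1 → (aeval z Fh : ℂ) ≠ 0 := by
  have hF1 : 0 < F.eval 1 := by
    have h1 := hpos 1 (by simp)
    have h2 : (aeval (1 : ℂ) F : ℂ) = ((F.eval 1 : ℝ) : ℂ) := by rw [← aeval_re]; simp
    have h3 : (aeval (1 : ℂ) G : ℂ) = ((G.eval 1 : ℝ) : ℂ) := by rw [← aeval_re]; simp
    rw [h2, h3, conj_ofReal, ← ofReal_mul, ofReal_re] at h1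
    exact (pos_iff_pos_of_mul_pos h1).mpr hG1
  obtain ⟨ζ', hζ, hz0⟩ : ∃ ζ' ∈ Set.Icc (0 : ℝ) 1, F.eval ζ' = 0 := by
    have hmem : (0 : ℝ) ∈ Set.Icc (F.eval 0) (F.eval 1) := by
      refine ⟨?_, hF1.le⟩
      rw [← coeff_zero_eq_eval_zero]; exact hF0.le
    obtain ⟨t, ht, ht0⟩ := intermediate_value_Icc (zero_le_one) (f := fun t => F.eval t)
      (by fun_prop) hmem
    exact ⟨t, ht, ht0⟩
  have hp : 0 < ζ' := by
    rcases eq_or_lt_of_le hζ.1 with h | h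
    · exfalso
      rw [← h, ← coeff_zero_eq_eval_zero] at hz0
      exact hF0.ne hz0
    · exact h
  have hp1 : ζ' < 1 := by
    rcases eq_or_lt_of_le hζ.2 with h | h
    · exfalso
      rw [h] at hz0
      exact hF1.ne' hz0
    · exact h
  obtain ⟨Fh, hF⟩ := dvd_iff_isRoot.mpr (show IsRoot F ζ' from hz0)
  refine ⟨ζ', Fh, hp, hp1, hF, ?_⟩
  have hFz : ∀ z : ℂ, (aeval z F : ℂ) = (z - ζ') * aeval z Fh := by
    intro z
    rw [hF]; simp
  have hGz : ∀ z : ℂ, (aeval z G : ℂ) = (z - ζ) * aeval z Gh := by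
    intro z
    rw [hG]; simp
  obtain ⟨h, hh⟩ : ∃ h : ℂ → ℂ, h = fun z : ℂ =>
      (aeval z Fh : ℂ) * (1 - ζ * z) / ((1 - ζ' * z) * aeval z Gh) := ⟨_, rfl⟩
  have hhd : DifferentiableOn ℂ h (closedBall 0 1) := by
    rw [hh]
    refine DifferentiableOn.div ?_ ?_ ?_
    · exact (Polynomial.differentiable_aeval Fh).differentiableOn.mul (by fun_prop)
    · exact (DifferentiableOn.mul (by fun_prop)
        (Polynomial.differentiable_aeval Gh).differentiableOn)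
    · intro w hw
      rw [mem_closedBall_zero_iff] at hw
      exact mul_ne_zero (one_sub_ne hp.le hp1 hw) (hGh w hw)
  have hre : ∀ z : ℂ, ‖z‖ = 1 → 0 < (h z).re := by
    intro z hz1
    have h0 := hpos z hz1
    have hFne : (aeval z F : ℂ) ≠ 0 := by
      intro h3; rw [h3, zero_mul, zero_re] at h0; exact lt_irrefl _ h0
    have hGne : (aeval z G : ℂ) ≠ 0 := by
      intro h3; rw [h3, map_zero, mul_zero, zero_re] at h0; exact lt_irrefl _ h0
    have hzne := z_ne hz1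
    have hzζ' : z - ζ' ≠ 0 := by
      intro h3; apply hFne; rw [hFz, h3, zero_mul]
    have hzζ : z - ζ ≠ 0 := by
      intro h3; apply hGne; rw [hGz, h3, zero_mul]
    have hFhne : (aeval z Fh : ℂ) ≠ 0 := by
      intro h3; apply hFne; rw [hFz, h3, mul_zero]
    have hGhne := hGh z hz1.le
    have hcz : (starRingEnd ℂ) z * z = 1 := by
      rw [← Complex.normSq_eq_conj_mul_self, Complex.normSq_eq_norm_sq, hz1]
      simp
    have hconj : ∀ x : ℝ, z - x ≠ 0 → (starRingEnd ℂ) z - x ≠ 0 := by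
      intro x hx h6
      apply hx
      have := congrArg (starRingEnd ℂ) h6
      simpa using this
    have hn : ∀ x : ℝ, ((‖z - x‖ ^ 2 : ℝ) : ℂ) = (z - x) * ((starRingEnd ℂ) z - x) := by
      intro x
      rw [← normSq_eq_norm_sq, ← mul_conj, map_sub, conj_ofReal]
    have hsub : ∀ x : ℝ, 1 - (x : ℂ) * z = z * ((starRingEnd ℂ) z - x) := by
      intro x
      linear_combination -hcz
    have h3 : h z = ((‖z - ζ‖ ^ 2 / ‖z - ζ'‖ ^ 2 / ‖(aeval z G : ℂ)‖ ^ 2 : ℝ) : ℂ) *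
        ((aeval z F : ℂ) * (starRingEnd ℂ) (aeval z G)) := by
      have h4 : ((‖(aeval z G : ℂ)‖ ^ 2 : ℝ) : ℂ) = aeval z G * (starRingEnd ℂ) (aeval z G) := by
        rw [← normSq_eq_norm_sq, ← mul_conj]
      have h5 : (starRingEnd ℂ) (aeval z G : ℂ) ≠ 0 := by simpa using hGne
      rw [ofReal_div, ofReal_div, hn, hn, h4, hh]
      simp only
      rw [hsub, hsub]
      have e1 := hconj ζ hzζ
      have e2 := hconj ζ' hzζ'
      have e3 : (aeval z Fh : ℂ) * (z * ((starRingEnd ℂ) z - ζ)) /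
          (z * ((starRingEnd ℂ) z - ζ') * aeval z Gh) =
          (aeval z Fh * ((starRingEnd ℂ) z - ζ)) / (((starRingEnd ℂ) z - ζ') * aeval z Gh) := by
        field_simp
      have e4 : (z - ζ) * ((starRingEnd ℂ) z - ζ) / ((z - ζ') * ((starRingEnd ℂ) z - ζ')) /
          (aeval z G * (starRingEnd ℂ) (aeval z G)) * ((aeval z F : ℂ) *
            (starRingEnd ℂ) (aeval z G)) =
          (z - ζ) * ((starRingEnd ℂ) z - ζ) / ((z - ζ') * ((starRingEnd ℂ) z - ζ')) *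
            (aeval z F / aeval z G) := by
        field_simp
      rw [e3, e4, hFz, hGz]
      field_simp
    rw [h3, re_ofReal_mul]
    refine mul_pos ?_ h0
    have g1 : 0 < ‖z - (ζ : ℂ)‖ := norm_pos_iff.mpr hzζ
    have g2 : 0 < ‖z - (ζ' : ℂ)‖ := norm_pos_iff.mpr hzζ'
    have g3 : 0 < ‖(aeval z G : ℂ)‖ := norm_pos_iff.mpr hGne
    positivity
  have hcl : closure (ball (0 : ℂ) 1) = closedBall 0 1 := closure_ball 0 one_ne_zero
  have hcs : ContinuousOn (fun z => (h z).re) (sphere 0 1) :=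
    continuous_re.comp_continuousOn (hhd.continuousOn.mono sphere_subset_closedBall)
  obtain ⟨z0, hz0', hmin⟩ := (isCompact_sphere (0 : ℂ) 1).exists_isMinOn
    ⟨1, by simp⟩ hcs
  have hz01 : ‖z0‖ = 1 := by simpa using hz0'
  obtain ⟨ε, hε⟩ : ∃ ε : ℝ, ε = (h z0).re := ⟨_, rfl⟩
  have hε0 : 0 < ε := by rw [hε]; exact hre z0 hz01
  have hd2 : DiffContOnCl ℂ (fun z => h z - (ε : ℂ)) (ball 0 1) := by
    refine DifferentiableOn.diffContOnCl ?_
    rw [hcl]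
    exact hhd.sub_const _
  have h2 := re_nonneg_of_circle hd2 (fun z hz1 => by
    have h3 := hmin (show z ∈ sphere (0 : ℂ) 1 by simpa using hz1)
    simp only [Set.mem_ofPred_eq] at h3
    rw [sub_re, ofReal_re, hε]
    linarith)
  intro z hz1 hWz0
  rcases lt_or_eq_of_le hz1 with h3 | h3
  · have h4 := h2 z h3
    rw [sub_re, ofReal_re, hh] at h4
    simp only [hWz0, zero_mul, zero_div, zero_re] at h4
    linarith
  · have h5 := hpos z h3
    rw [hFz, hWz0, mul_zero, zero_mul, zero_re] at h5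
    exact lt_irrefl _ h5

end Pool.Agent.B5.O4Q
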